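import Pool.Agent.W181.RT.Props

/-!
# RT-LCR: Cramer's rule consequence of the derivations
-/

set_option autoImplicit false

namespace Pool.Agent.W496.RT

open Pool.Agent.W181.RT

/-- chain rule for a derivation and a polynomial in several elements -/
theorem chain {R : Type} [CommRing R] [Algebra ℚ R] (δ : Derivation ℚ R R) {m : ℕ}
    (q : Fin m → R) (H : MvPolynomial (Fin m) ℚ) :
    δ (MvPolynomial.aeval q H) =
      ∑ i, MvPolynomial.aeval q (MvPolynomial.pderiv i H) * δ (q i) := by
  induction H using MvPolynomial.induction_on with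
  | C a =>
    rw [MvPolynomial.aeval_C, Derivation.map_algebraMap]
    symm
    refine Finset.sum_eq_zero fun i _ => ?_
    rw [MvPolynomial.pderiv_C, map_zero, zero_mul]
  | add p r hp hr =>
    rw [map_add, map_add, hp, hr, ← Finset.sum_add_distrib]
    refine Finset.sum_congr rfl fun i _ => ?_
    rw [map_add, map_add, add_mul]
  | mul_X p n hp =>
    rw [map_mul, MvPolynomial.aeval_X, Derivation.leibniz, hp, smul_eq_mul, smul_eq_mul]
    have h : ∀ i : Fin m, MvPolynomial.aeval q (MvPolynomial.pderiv i (p * MvPolynomial.X n))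
        * δ (q i) = (if i = n then MvPolynomial.aeval q p * δ (q i) else 0)
          + q n * (MvPolynomial.aeval q (MvPolynomial.pderiv i p) * δ (q i)) := by
      intro i
      rw [Derivation.leibniz, smul_eq_mul, smul_eq_mul, map_add, map_mul, map_mul,
        MvPolynomial.aeval_X]
      by_cases hi : i = n
      · subst hi
        rw [if_pos rfl, MvPolynomial.pderiv_X_self, map_one]
        ring
      · rw [if_neg hi, MvPolynomial.pderiv_X_of_ne (Ne.symm hi), map_zero]
        ring
    rw [Finset.sum_congr rfl fun i _ => h i, Finset.sum_add_distrib, Finset.sum_ite_eq',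
      if_pos (Finset.mem_univ n), Finset.mul_sum]

theorem cramer {R : Type} [CommRing R] [Algebra ℚ R] (q : ℕ → R)
    (hδ : ∀ a : ℕ, ∃ δ : Derivation ℚ R R, ∀ c : ℕ, δ (q c) = ((c : R) + 1) * q (a + c))
    {m : ℕ} (H : MvPolynomial (Fin m) ℚ)
    (hH : MvPolynomial.aeval (fun i : Fin m => q (i : ℕ)) H = 0) (i : Fin m) (z : R)
    (hz : z ∈ PI q m) :
    MvPolynomial.aeval (fun i : Fin m => q (i : ℕ)) (MvPolynomial.pderiv i H) * z = 0 := by
  classical
  set v : Fin m → R := fun c => ((c : ℕ) + 1 : R) *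
    MvPolynomial.aeval (fun i : Fin m => q (i : ℕ)) (MvPolynomial.pderiv c H) with hv
  have h1 : ∀ a : ℕ, ∑ c : Fin m, q (a + c) * v c = 0 := by
    intro a
    obtain ⟨δ, hd⟩ := hδ a
    have h2 := chain δ (fun i : Fin m => q (i : ℕ)) H
    rw [hH, map_zero] at h2
    rw [h2]
    refine Finset.sum_congr rfl fun c _ => ?_
    rw [hd, hv]
    ring
  refine Submodule.span_induction (p := fun z _ =>
    MvPolynomial.aeval (fun i : Fin m => q (i : ℕ)) (MvPolynomial.pderiv i H) * z = 0)
    ?_ ?_ ?_ ?_ hz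
  · rintro _ ⟨α, rfl⟩
    set M : Matrix (Fin m) (Fin m) R := Matrix.of fun (l c : Fin m) => q (α l + (c : ℕ)) with hM
    have h3 : M.mulVec v = 0 := by
      funext l
      simp only [Matrix.mulVec, dotProduct, hM, Matrix.of_apply, Pi.zero_apply]
      exact h1 (α l)
    have h4 : M.det • v = 0 := by
      have := congrArg (fun w => (Matrix.adjugate M).mulVec w) h3
      simp only [Matrix.mulVec_mulVec, Matrix.adjugate_mul, Matrix.mulVec_zero,
        Matrix.smul_mulVec, Matrix.one_mulVec] at this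
      exact this
    have h5 := congrFun h4 i
    simp only [Pi.smul_apply, smul_eq_mul, Pi.zero_apply, hv] at h5
    show _ * M.det = 0
    have hne : ((i : ℕ) + 1 : ℚ) ≠ 0 := by positivity
    have h6 : algebraMap ℚ R (((i : ℕ) + 1 : ℚ)⁻¹) * ((i : ℕ) + 1 : R) = 1 := by
      have : ((i : ℕ) + 1 : R) = algebraMap ℚ R ((i : ℕ) + 1 : ℚ) := by
        rw [map_add, map_natCast, map_one]
      rw [this, ← map_mul, inv_mul_cancel₀ hne, map_one]
    calc MvPolynomial.aeval (fun i : Fin m => q (i : ℕ)) (MvPolynomial.pderiv i H) * M.det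
        = (algebraMap ℚ R (((i : ℕ) + 1 : ℚ)⁻¹) * ((i : ℕ) + 1 : R)) *
          (MvPolynomial.aeval (fun i : Fin m => q (i : ℕ)) (MvPolynomial.pderiv i H)
            * M.det) := by rw [h6, one_mul]
      _ = algebraMap ℚ R (((i : ℕ) + 1 : ℚ)⁻¹) * (M.det * (((i : ℕ) + 1 : R) *
          MvPolynomial.aeval (fun i : Fin m => q (i : ℕ)) (MvPolynomial.pderiv i H))) := by ring
      _ = 0 := by rw [h5, mul_zero]
  · rw [mul_zero]
  · intro x y _ _ hx hy
    rw [mul_add, hx, hy, add_zero]
  · intro a x _ hx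
    rw [smul_eq_mul, mul_left_comm, hx, mul_zero]

theorem lcr (h : S_DER) : S_LCR := by
  intro ℓ k m H hH i z hz
  exact cramer (qq ℓ k) (fun a => h ℓ k a) H hH i z hz

end Pool.Agent.W496.RT
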